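import Mathlib
import Pool.Agent.Q177.NavyC

/-!
# MP_6bd103_gt, Q2: a closed map from a paralindelöf space onto a regular space which is not
paralindelöf
-/

set_option autoImplicit false

universe u

namespace Pool.Agent.Results.MP_6bd103_gt.ClosedImageFails

open Set Topology

/-- A family of subsets is locally countable if every point has a neighbourhood that meets only
countably many members. -/
def LocallyCountable {X : Type u} [TopologicalSpace X] (𝒱 : Set (Set X)) : Prop :=
  ∀ x : X, ∃ N ∈ 𝓝 x, {V ∈ 𝒱 | (V ∩ N).Nonempty}.Countable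

/-- A space is paralindelöf if every open cover has a locally countable open refinement (which is
again a cover). -/
def Paralindelof (X : Type u) [TopologicalSpace X] : Prop :=
  ∀ 𝒰 : Set (Set X), (∀ U ∈ 𝒰, IsOpen U) → ⋃₀ 𝒰 = univ →
    ∃ 𝒱 : Set (Set X), (∀ V ∈ 𝒱, IsOpen V) ∧ ⋃₀ 𝒱 = univ ∧ (∀ V ∈ 𝒱, ∃ U ∈ 𝒰, V ⊆ U) ∧
      LocallyCountable 𝒱

/-- In ZFC there are spaces `X` and `Y`, both regular `T₁` and even normal, and a continuous closed
surjection `f : X → Y` such that `X` is paralindelöf and `Y` is not paralindelöf. -/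
theorem result : ∃ (X Y : Type) (_ : TopologicalSpace X) (_ : TopologicalSpace Y) (f : X → Y),
    T3Space X ∧ T3Space Y ∧ T4Space X ∧ T4Space Y ∧ Continuous f ∧ Function.Surjective f ∧
      IsClosedMap f ∧ Paralindelof X ∧ ¬ Paralindelof Y := by
  obtain ⟨W, _, _, hW⟩ := Q177.Navy.exists_omega1
  have hne : Nonempty W := inferInstance
  have hX := Q177.Navy.X_t4 (W := W)
  have hY := Q177.Navy.Y_t4 (W := W)
  exact ⟨Q177.Navy.XX W, Q177.Navy.YY W, inferInstance, inferInstance, Q177.Navy.ff,
    inferInstance, inferInstance, hX, hY, Q177.Navy.ff_cont, Q177.Navy.ff_surj,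
    Q177.Navy.ff_closed, Q177.Navy.X_para hW, Q177.Navy.Y_not_para hW⟩

end Pool.Agent.Results.MP_6bd103_gt.ClosedImageFails
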